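import Pool.Agent.BG73.Main

set_option autoImplicit false

namespace Pool.Agent.Results.MP_28a56a_co.ExactGrowth

open Pool.Agent.H59.Biclique

/-- The order of growth of the largest ratio of the fractional greedy bound and the induced
subgraph density bound, over bipartite graphs on at most `n` vertices, is `n / (log n * log* n)`. -/
theorem result : ∃ c C : ℝ, 0 < c ∧ 0 < C ∧ ∀ n : ℕ, 2 ≤ n →
    c * (n / (Real.log n * Pool.Agent.BG73.logStar n)) ≤ g n ∧
      g n ≤ C * (n / (Real.log n * Pool.Agent.BG73.logStar n)) :=
  Pool.Agent.BG73.main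

end Pool.Agent.Results.MP_28a56a_co.ExactGrowth
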